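import Pool.Agent.X310.MomDefs
import Pool.Agent.N181.Gap.GDefs

/-!
# The partial defects of the conjecture A: definitions
-/

set_option autoImplicit false

open CategoryTheory AlgebraicGeometry

universe u v

namespace Pool.Agent.V5helper92.DG

open Pool.Agent.H914 Pool.Agent.W534 VarClass Obj WeilCohomology

variable {k : Type u} [Field k] {𝒱 : VarClass k} {ops : CycleOps 𝒱}

/-- The partial defect of the conjecture A for `V`: the sum over the codimensions `i ≤ j` of
`r(V, dim V - i) - r(V, i)`, where `r(V, p)` is the dimension of the `K`-span of the classes of the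
cycles of codimension `p` (and zero for negative `p`). The sum of the partial defects for
`j < dim V` is the defect. -/
noncomputable def partDefect (W : WeilCohomology.{u, v} ops) (V : 𝒱.Obj) (j : ℕ) : ℤ :=
  ∑ i ∈ Finset.range (j + 1), ((cycleRank W V ((V.dim : ℤ) - i) : ℤ) - cycleRank W V i)

end Pool.Agent.V5helper92.DG
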