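import Pool.Agent.V5helper92.DG.Hom

/-!
# Graded subspaces and partial sums
-/

set_option autoImplicit false
set_option linter.unusedSectionVars false

namespace Pool.Agent.V5helper92.DG

open Module Pool.Agent.H914
open IsNilpotent (exp exp_eq_sum)

section fam

variable {K : Type*} [Field K] [CharZero K] {V : Type*} [AddCommGroup V] [Module K V]
  [FiniteDimensional K V] {h : End K V} {n : ℤ} {G : ℤ → Submodule K V}

lemma finrank_fam (hG : ∀ c, G c ≤ ws h (2 * c - n)) (S : Finset ℤ) :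
    finrank K (⨆ c ∈ S, G c : Submodule K V) = ∑ c ∈ S, finrank K (G c) := by
  classical
  induction S using Finset.induction_on with
  | empty => simp
  | insert a S ha ih =>
    rw [Finset.iSup_insert, Finset.sum_insert ha, ← ih]
    have h1 := Submodule.finrank_sup_add_finrank_inf_eq (G a) (⨆ c ∈ S, G c)
    have h2 : G a ⊓ (⨆ c ∈ S, G c) = ⊥ := by
      rw [eq_bot_iff]
      have h3 : (⨆ c ∈ S, G c) ≤ ⨆ k ∈ {k : ℤ | k ≠ 2 * a - n}, ws h k := by
        refine iSup_le fun c => iSup_le fun hc => (hG c).trans ?_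
        refine le_iSup_of_le (2 * c - n) (le_iSup_of_le ?_ le_rfl)
        intro h4
        have : c = a := by
          have h5 : 2 * c - n = 2 * a - n := h4
          omega
        exact ha (this ▸ hc)
      have h4 := (indep_ws h).disjoint_biSup (x := 2 * a - n) (y := {k : ℤ | k ≠ 2 * a - n})
        (fun h5 => h5 rfl)
      exact (inf_le_inf (hG a) h3).trans h4.le_bot
    rw [h2, finrank_bot, add_zero] at h1
    exact h1

lemma iSup_eq {I : Finset ℤ} (h0 : ∀ c, c ∉ I → G c = ⊥) : ⨆ c, G c = ⨆ c ∈ I, G c := by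
  apply le_antisymm
  · refine iSup_le fun c => ?_
    by_cases hc : c ∈ I
    · exact le_iSup_of_le c (le_iSup_of_le hc le_rfl)
    · rw [h0 c hc]; exact bot_le
  · exact iSup_le fun c => iSup_le fun _ => le_iSup G c

lemma inf_dn (hG : ∀ c, G c ≤ ws h (2 * c - n)) {I : Finset ℤ} (h0 : ∀ c, c ∉ I → G c = ⊥)
    (P : ℤ) : (⨆ c, G c) ⊓ dn h P = ⨆ c ∈ I.filter (fun c => 2 * c - n ≤ P), G c := by
  classical
  have h1 : (⨆ c, G c) = (⨆ c ∈ I.filter (fun c => 2 * c - n ≤ P), G c) ⊔
      (⨆ c ∈ I.filter (fun c => ¬ 2 * c - n ≤ P), G c) := by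
    rw [iSup_eq h0]
    apply le_antisymm
    · refine iSup_le fun c => iSup_le fun hc => ?_
      by_cases hcP : 2 * c - n ≤ P
      · exact le_sup_of_le_left (le_iSup_of_le c (le_iSup_of_le
          (Finset.mem_filter.2 ⟨hc, hcP⟩) le_rfl))
      · exact le_sup_of_le_right (le_iSup_of_le c (le_iSup_of_le
          (Finset.mem_filter.2 ⟨hc, hcP⟩) le_rfl))
    · refine sup_le ?_ ?_ <;>
      exact iSup_le fun c => iSup_le fun hc =>
        le_iSup_of_le c (le_iSup_of_le (Finset.mem_filter.1 hc).1 le_rfl)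
  have h2 : (⨆ c ∈ I.filter (fun c => 2 * c - n ≤ P), G c) ≤ dn h P :=
    iSup_le fun c => iSup_le fun hc => (hG c).trans (ws_le_dn (Finset.mem_filter.1 hc).2)
  have h3 : (⨆ c ∈ I.filter (fun c => ¬ 2 * c - n ≤ P), G c) ≤ up h P :=
    iSup_le fun c => iSup_le fun hc => (hG c).trans
      (ws_le_up (not_le.1 (Finset.mem_filter.1 hc).2))
  rw [h1, sup_inf_assoc_of_le _ h2]
  have h4 : (⨆ c ∈ I.filter (fun c => ¬ 2 * c - n ≤ P), G c) ⊓ dn h P = ⊥ := by
    rw [eq_bot_iff]
    exact (inf_le_inf_right _ h3).trans (disjoint_up_dn h P).le_bot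
  rw [h4, sup_bot_eq]

end fam

section sums

/-- The partial sums `∑ (r (n - i) - r i)`, `i ≤ j`. -/
def pd (n : ℕ) (r : ℤ → ℤ) (j : ℕ) : ℤ := ∑ i ∈ Finset.range (j + 1), (r (n - i) - r i)

lemma pd_eq {n : ℕ} {r : ℤ → ℤ} (hr : ∀ c, c ∉ Finset.Icc (0 : ℤ) n → r c = 0) (j : ℕ) :
    pd n r j = ∑ c ∈ Finset.Icc (0 : ℤ) n, r c -
      ∑ c ∈ (Finset.Icc (0 : ℤ) n).filter (fun c => 2 * c - n ≤ (n : ℤ) - 2 * j - 1), r c -
      ∑ c ∈ (Finset.Icc (0 : ℤ) n).filter
        (fun c => 2 * c - n ≤ -((n : ℤ) - 2 * j - 1) - 1), r c := by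
  classical
  have h1 : ∑ i ∈ Finset.range (j + 1), r (n - i) =
      ∑ c ∈ (Finset.Icc (0 : ℤ) n).filter (fun c => ¬ 2 * c - n ≤ (n : ℤ) - 2 * j - 1), r c := by
    have e1 : ∑ i ∈ Finset.range (j + 1), r (n - i) =
        ∑ c ∈ (Finset.range (j + 1)).image (fun i : ℕ => (n : ℤ) - i), r c := by
      rw [Finset.sum_image]
      intro a _ b _ hab
      simp only at hab
      omega
    rw [e1]
    symm
    apply Finset.sum_subset
    · intro c hc
      rw [Finset.mem_filter, Finset.mem_Icc] at hc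
      rw [Finset.mem_image]
      exact ⟨((n : ℤ) - c).toNat, by rw [Finset.mem_range]; omega, by omega⟩
    · intro c hc hc'
      rw [Finset.mem_image] at hc
      obtain ⟨i, hi, rfl⟩ := hc
      rw [Finset.mem_range] at hi
      apply hr
      intro h2
      apply hc'
      rw [Finset.mem_filter]
      exact ⟨h2, by omega⟩
  have h2 : ∑ i ∈ Finset.range (j + 1), r i = ∑ c ∈ (Finset.Icc (0 : ℤ) n).filter
        (fun c => 2 * c - n ≤ -((n : ℤ) - 2 * j - 1) - 1), r c := by
    have e1 : ∑ i ∈ Finset.range (j + 1), r i =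
        ∑ c ∈ (Finset.range (j + 1)).image (fun i : ℕ => (i : ℤ)), r c := by
      rw [Finset.sum_image]
      intro a _ b _ hab
      simp only at hab
      omega
    rw [e1]
    symm
    apply Finset.sum_subset
    · intro c hc
      rw [Finset.mem_filter, Finset.mem_Icc] at hc
      rw [Finset.mem_image]
      exact ⟨c.toNat, by rw [Finset.mem_range]; omega, by omega⟩
    · intro c hc hc'
      rw [Finset.mem_image] at hc
      obtain ⟨i, hi, rfl⟩ := hc
      rw [Finset.mem_range] at hi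
      apply hr
      intro h2
      apply hc'
      rw [Finset.mem_filter]
      exact ⟨h2, by omega⟩
  have h3 := Finset.sum_filter_add_sum_filter_not (Finset.Icc (0 : ℤ) n)
    (fun c => 2 * c - n ≤ (n : ℤ) - 2 * j - 1) r
  rw [pd, Finset.sum_sub_distrib, h1, h2]
  linarith

lemma sum_partial (f : ℕ → ℤ) (J : ℕ) :
    ∑ j ∈ Finset.range J, ∑ i ∈ Finset.range (j + 1), f i =
      ∑ i ∈ Finset.range J, ((J : ℤ) - i) * f i := by
  induction J with
  | zero => simp
  | succ J ih =>
    rw [Finset.sum_range_succ, ih]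
    have h1 : ∑ i ∈ Finset.range (J + 1), (((J + 1 : ℕ) : ℤ) - i) * f i =
        ∑ i ∈ Finset.range (J + 1), ((J : ℤ) - i) * f i + ∑ i ∈ Finset.range (J + 1), f i := by
      rw [← Finset.sum_add_distrib]
      exact Finset.sum_congr rfl fun i _ => by push_cast; ring
    rw [h1, Finset.sum_range_succ (fun i => ((J : ℤ) - i) * f i), sub_self, zero_mul, add_zero]

lemma sum_pd {n : ℕ} {r : ℤ → ℤ} (hr : ∀ c, c ∉ Finset.Icc (0 : ℤ) n → r c = 0) {J : ℕ}
    (hJ : n ≤ J) : ∑ j ∈ Finset.range J, pd n r j =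
      ∑ p ∈ Finset.range (n + 1), (2 * (p : ℤ) - n) * r p := by
  have h0 : ∀ i : ℕ, n < i → r (n - i) - r i = 0 := by
    intro i hi
    rw [hr _ (by rw [Finset.mem_Icc]; omega), hr _ (by rw [Finset.mem_Icc]; omega), sub_zero]
  have h1 : ∑ j ∈ Finset.range J, pd n r j =
      ∑ i ∈ Finset.range (n + 1), ((J : ℤ) - i) * (r (n - i) - r i) := by
    simp only [pd]
    rw [sum_partial]
    rcases Nat.lt_or_ge n J with h2 | h2
    · symm
      apply Finset.sum_subset
      · intro i hi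
        rw [Finset.mem_range] at hi ⊢
        omega
      · intro i _ hi
        rw [Finset.mem_range, not_lt] at hi
        rw [h0 i (by omega), mul_zero]
    · have h3 : J = n := by omega
      subst h3
      rw [Finset.sum_range_succ, sub_self, zero_mul, add_zero]
  rw [h1]
  have h2 : ∑ i ∈ Finset.range (n + 1), ((J : ℤ) - i) * r (n - i) =
      ∑ p ∈ Finset.range (n + 1), ((J : ℤ) - (n - p)) * r p := by
    rw [← Finset.sum_range_reflect (fun p : ℕ => ((J : ℤ) - (n - p)) * r p) (n + 1)]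
    refine Finset.sum_congr rfl fun i hi => ?_
    rw [Finset.mem_range] at hi
    have e1 : ((n + 1 - 1 - i : ℕ) : ℤ) = (n : ℤ) - i := by omega
    rw [e1]
    congr 1
    ring
  simp only [mul_sub] at h2 ⊢
  rw [Finset.sum_sub_distrib, h2, ← Finset.sum_sub_distrib]
  exact Finset.sum_congr rfl fun p _ => by ring

end sums

end Pool.Agent.V5helper92.DG
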