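import Pool.Agent.V5helper92.DG.Wts

/-!
# Exponentials, weights and truncations
-/

set_option autoImplicit false
set_option linter.unusedSectionVars false

namespace Pool.Agent.V5helper92.DG

open Module Pool.Agent.H914
open IsNilpotent (exp exp_eq_sum)

section exps

variable {K : Type*} [Field K] [CharZero K] {V : Type*} [AddCommGroup V] [Module K V]
  [Module ℚ V]

lemma rat_smul_mem (S : Submodule K V) (q : ℚ) {v : V} (hv : v ∈ S) : q • v ∈ S := by
  rw [← Rat.cast_smul_eq_qsmul K]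
  exact S.smul_mem _ hv

lemma exp_sub_mem {e : End K V} (he : IsNilpotent e) {S : Submodule K V}
    (hS : ∀ v ∈ S, e v ∈ S) {v : V} (hv : e v ∈ S) : exp e v - v ∈ S := by
  obtain ⟨N, hN⟩ := he
  have hN1 : e ^ (N + 1) = 0 := by rw [pow_succ, hN, zero_mul]
  have h1 : exp e v - v = ∑ i ∈ Finset.range N,
      (((i + 1).factorial : ℚ)⁻¹) • (e ^ (i + 1)) v := by
    rw [exp_eq_sum hN1, LinearMap.sum_apply, Finset.sum_range_succ']
    simp only [LinearMap.smul_apply, Nat.factorial_zero, Nat.cast_one, inv_one, pow_zero,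
      End.one_apply, one_smul, add_sub_cancel_right]
  rw [h1]
  refine Submodule.sum_mem _ fun i hi => rat_smul_mem S _ ?_
  clear hi
  induction i with
  | zero => simpa using hv
  | succ i ih => rw [pow_succ', End.mul_apply]; exact hS _ ih

lemma exp_mem {e : End K V} (he : IsNilpotent e) {S : Submodule K V}
    (hS : ∀ v ∈ S, e v ∈ S) {v : V} (hv : v ∈ S) : exp e v ∈ S := by
  have h1 := exp_sub_mem he hS (hS v hv)
  have h2 : exp e v = (exp e v - v) + v := by abel
  rw [h2]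
  exact S.add_mem h1 hv

lemma exp_exp_neg {e : End K V} (he : IsNilpotent e) (v : V) : exp e (exp (-e) v) = v := by
  rw [← End.mul_apply, IsNilpotent.exp_mul_exp_neg_self he, End.one_apply]

lemma exp_neg_exp {e : End K V} (he : IsNilpotent e) (v : V) : exp (-e) (exp e v) = v := by
  rw [← End.mul_apply, IsNilpotent.exp_neg_mul_exp_self he, End.one_apply]

lemma exp_inj {e : End K V} (he : IsNilpotent e) : Function.Injective ((exp e : End K V)) :=
  Function.LeftInverse.injective (g := (exp (-e) : End K V)) (exp_neg_exp he)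

omit [CharZero K] [Module ℚ V] in
lemma finrank_map_inj {F : End K V} (hF : Function.Injective F) (S : Submodule K V) :
    finrank K (S.map F) = finrank K S :=
  (Submodule.equivMapOfInjective F hF S).finrank_eq.symm

lemma map_exp_self {e : End K V} (he : IsNilpotent e) {S : Submodule K V}
    (hS : ∀ v ∈ S, e v ∈ S) : S.map (exp e) = S := by
  apply le_antisymm
  · rintro _ ⟨v, hv, rfl⟩
    exact exp_mem he hS hv
  · intro v hv
    exact ⟨exp (-e) v, exp_mem he.neg (fun x hx => by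
      rw [LinearMap.neg_apply]; exact S.neg_mem (hS x hx)) hv, exp_exp_neg he v⟩

end exps

section weights

variable {K : Type*} [Field K] [CharZero K] {V : Type*} [AddCommGroup V] [Module K V]
  {h e f : End K V}

omit [CharZero K] in
lemma Sl2.e_ws (t : Sl2 h e f) {k : ℤ} {v : V} (hv : v ∈ ws h k) : e v ∈ ws h (k + 2) := by
  rw [mem_ws] at hv ⊢
  have h1 := congrArg (fun G : End K V => G v) t.he
  simp only [LinearMap.sub_apply, End.mul_apply, two_mul, LinearMap.add_apply] at h1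
  rw [hv, map_smul] at h1
  have h2 : h (e v) = (k : K) • e v + (e v + e v) := by rw [← h1]; abel
  rw [h2]
  push_cast
  rw [add_smul, two_smul]

omit [CharZero K] in
lemma Sl2.f_ws (t : Sl2 h e f) {k : ℤ} {v : V} (hv : v ∈ ws h k) : f v ∈ ws h (k - 2) := by
  rw [mem_ws] at hv ⊢
  have h1 := congrArg (fun G : End K V => G v) t.hf
  simp only [LinearMap.sub_apply, End.mul_apply, two_mul, LinearMap.add_apply,
    LinearMap.neg_apply] at h1
  rw [hv, map_smul] at h1
  have h2 : h (f v) = (k : K) • f v + -(f v + f v) := by rw [← h1]; abel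
  rw [h2]
  push_cast
  rw [sub_smul, two_smul, sub_eq_add_neg]

omit [CharZero K] in
lemma Sl2.e_up (t : Sl2 h e f) (P : ℤ) {v : V} (hv : v ∈ up h P) : e v ∈ up h P := by
  have h1 : up h P ≤ (up h P).comap e := up_le fun k hk v hv =>
    ws_le_up (by omega : P < k + 2) (e_ws t hv)
  exact h1 hv

omit [CharZero K] in
lemma Sl2.f_dn (t : Sl2 h e f) (P : ℤ) {v : V} (hv : v ∈ dn h P) : f v ∈ dn h P := by
  have h1 : dn h P ≤ (dn h P).comap f := dn_le fun k hk v hv =>
    ws_le_dn (by omega : k - 2 ≤ P) (f_ws t hv)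
  exact h1 hv

variable [FiniteDimensional K V] [Module ℚ V]

/-- The operator `exp f` does not change the leading terms. -/
lemma exp_f_ws (t : Sl2 h e f) {k : ℤ} {v : V} (hv : v ∈ ws h k) :
    exp f v - v ∈ dn h (k - 1) :=
  exp_sub_mem t.nil_f (fun _ hx => Sl2.f_dn t _ hx)
    (ws_le_dn (by omega : k - 2 ≤ k - 1) (Sl2.f_ws t hv))

lemma exp_neg_f_ws (t : Sl2 h e f) {k : ℤ} {v : V} (hv : v ∈ ws h k) :
    exp (-f) v - v ∈ dn h (k - 1) :=
  exp_sub_mem t.nil_f.neg (fun _ hx => by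
    rw [LinearMap.neg_apply]; exact Submodule.neg_mem _ (Sl2.f_dn t _ hx))
    (by
      rw [LinearMap.neg_apply]
      exact Submodule.neg_mem _ (ws_le_dn (by omega : k - 2 ≤ k - 1) (Sl2.f_ws t hv)))

lemma exp_f_dn (t : Sl2 h e f) (P : ℤ) {v : V} (hv : v ∈ dn h P) : exp f v ∈ dn h P :=
  exp_mem t.nil_f (fun _ hx => Sl2.f_dn t _ hx) hv

lemma exp_neg_f_dn (t : Sl2 h e f) (P : ℤ) {v : V} (hv : v ∈ dn h P) : exp (-f) v ∈ dn h P :=
  exp_mem t.nil_f.neg (fun _ hx => by
    rw [LinearMap.neg_apply]; exact Submodule.neg_mem _ (Sl2.f_dn t _ hx)) hv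

lemma exp_e_up (t : Sl2 h e f) (P : ℤ) {v : V} (hv : v ∈ up h P) : exp e v ∈ up h P :=
  exp_mem t.nil_e (fun _ hx => Sl2.e_up t _ hx) hv

lemma exp_neg_e_up (t : Sl2 h e f) (P : ℤ) {v : V} (hv : v ∈ up h P) : exp (-e) v ∈ up h P :=
  exp_mem t.nil_e.neg (fun _ hx => by
    rw [LinearMap.neg_apply]; exact Submodule.neg_mem _ (Sl2.e_up t _ hx)) hv

/-- the opposite triple -/
lemma Sl2.opp (t : Sl2 h e f) : Sl2 h (-e) (-f) where
  ef := by rw [← t.ef]; noncomm_ring
  he := by
    calc h * -e - -e * h = -(h * e - e * h) := by noncomm_ring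
      _ = _ := by rw [t.he]; noncomm_ring
  hf := by
    calc h * -f - -f * h = -(h * f - f * h) := by noncomm_ring
      _ = _ := by rw [t.hf]; noncomm_ring

/-- the Weyl operator `exp (-e) exp f exp (-e)` -/
noncomputable def wy (e f : End K V) : End K V := weyl (-e) (-f)

lemma exp_f_eq (t : Sl2 h e f) (v : V) : exp f (exp (-e) v) = exp e (wy e f v) := by
  have h1 : wy e f v = exp (-e) (exp f (exp (-e) v)) := by
    rw [wy, weyl, neg_neg]; rfl
  rw [h1, exp_exp_neg t.nil_e]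

lemma wy_ws (t : Sl2 h e f) {k : ℤ} {v : V} (hv : v ∈ ws h k) : wy e f v ∈ ws h (-k) := by
  have h1 := (Sl2.opp t).weyl_h t.nil_e.neg t.nil_f.neg
  have h2 := congrArg (fun G : End K V => G v) h1
  simp only [LinearMap.neg_apply, End.mul_apply] at h2
  rw [mem_ws] at hv ⊢
  rw [hv, map_smul] at h2
  rw [wy]
  push_cast
  rw [neg_smul, h2, neg_neg]

lemma wy_inj (t : Sl2 h e f) : Function.Injective (wy e f) := by
  have h1 : ∀ v, wy e f v = exp (-e) (exp f (exp (-e) v)) := fun v => by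
    rw [wy, weyl, neg_neg]; rfl
  intro x y hxy
  rw [h1, h1] at hxy
  exact exp_inj t.nil_e.neg (exp_inj t.nil_f (exp_inj t.nil_e.neg hxy))

lemma wy_dn (t : Sl2 h e f) {P : ℤ} {v : V} (hv : v ∈ dn h (-P - 1)) : wy e f v ∈ up h P := by
  have h1 : dn h (-P - 1) ≤ (up h P).comap (wy e f) := dn_le fun k hk v hv =>
    ws_le_up (by omega : P < -k) (wy_ws t hv)
  exact h1 hv

lemma wy_up (t : Sl2 h e f) {P : ℤ} {v : V} (hv : v ∈ up h (-P - 1)) : wy e f v ∈ dn h P := by
  have h1 : up h (-P - 1) ≤ (dn h P).comap (wy e f) := up_le fun k hk v hv =>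
    ws_le_dn (by omega : -k ≤ P) (wy_ws t hv)
  exact h1 hv

lemma mem_dn_of_wy (t : Sl2 h e f) (hI : Spanned h) {P : ℤ} {v : V} (hv : wy e f v ∈ up h P) :
    v ∈ dn h (-P - 1) := by
  have h0 : v ∈ up h (-P - 1) ⊔ dn h (-P - 1) := by rw [codisjoint_up_dn hI]; trivial
  obtain ⟨a, ha, b, hb, rfl⟩ := Submodule.mem_sup.1 h0
  have h1 : wy e f a ∈ up h P := by
    have h2 : wy e f a = wy e f (a + b) - wy e f b := by rw [map_add]; abel
    rw [h2]
    exact Submodule.sub_mem _ hv (wy_dn t hb)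
  have h3 := (disjoint_up_dn h P).le_bot ⟨h1, wy_up t ha⟩
  have h4 : a = 0 := wy_inj t (by rw [(Submodule.mem_bot _).1 h3, map_zero])
  rw [h4, zero_add]
  exact hb

/-- **The dimension formula.** -/
theorem rho_exp (t : Sl2 h e f) (hI : Spanned h) {M : Submodule K V} (hM : ∀ v ∈ M, e v ∈ M)
    (P : ℤ) :
    rho (M.map (exp f)) (tau hI P) + finrank K (M ⊓ dn h P : Submodule K V) +
      finrank K (M ⊓ dn h (-P - 1) : Submodule K V) = finrank K M := by
  have hfi := exp_inj t.nil_f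
  have h1 : finrank K (M.map (exp f)) = finrank K M :=
    finrank_map_inj hfi M
  have h2 : (M.map (exp f)) ⊓ dn h P = (M ⊓ dn h P).map (exp f) := by
    apply le_antisymm
    · rintro _ ⟨⟨v, hv, rfl⟩, hv'⟩
      refine ⟨v, ⟨hv, ?_⟩, rfl⟩
      have := exp_neg_f_dn t P hv'
      rwa [exp_neg_exp t.nil_f] at this
    · rintro _ ⟨v, ⟨hv, hv'⟩, rfl⟩
      exact ⟨⟨v, hv, rfl⟩, exp_f_dn t P hv'⟩
  have h3 : (M.map (exp f)) ⊓ up h P = (M ⊓ dn h (-P - 1)).map (exp e * wy e f) := by
    apply le_antisymm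
    · rintro _ ⟨⟨v, hv, rfl⟩, hv'⟩
      have hM' : ∀ x ∈ M, (-e) x ∈ M := fun x hx => by
        rw [LinearMap.neg_apply]; exact M.neg_mem (hM x hx)
      have h5 : exp f v = exp e (wy e f (exp e v)) := by
        rw [← exp_f_eq t, exp_neg_exp t.nil_e]
      refine ⟨exp e v, ⟨exp_mem t.nil_e hM hv, ?_⟩, h5.symm⟩
      apply mem_dn_of_wy t hI
      have h6 := exp_neg_e_up t P hv'
      rwa [h5, exp_neg_exp t.nil_e] at h6
    · rintro _ ⟨v, ⟨hv, hv'⟩, rfl⟩
      refine ⟨⟨exp (-e) v, exp_mem t.nil_e.neg (fun x hx => by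
        rw [LinearMap.neg_apply]; exact M.neg_mem (hM x hx)) hv, exp_f_eq t v⟩, ?_⟩
      exact exp_e_up t P (wy_dn t hv')
  have h4 := rho_eq hI (M.map (exp f)) P
  rw [h2, h3, finrank_map_inj hfi, finrank_map_inj (by
    intro x y hxy
    exact wy_inj t (exp_inj t.nil_e hxy)), h1] at h4
  exact h4

end weights

end Pool.Agent.V5helper92.DG
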