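import Pool.Agent.V5helper92.DG.Geo
import Pool.Agent.N181.Gap.Iso

/-!
# The defect of a product, and the conjecture B
-/

set_option autoImplicit false
set_option linter.unusedSectionVars false

open CategoryTheory AlgebraicGeometry

universe u v

namespace Pool.Agent.V5helper92.DG

open Module Pool.Agent.H914 Pool.Agent.W534 Pool.Agent.H447 Pool.Agent.W537
  Pool.Agent.TH720.LB Pool.Agent.X310 Pool.Agent.X310.Mom VarClass Obj WeilCohomology
  Pool.Agent.N181.Mod Pool.Agent.N181.Gap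

variable {k : Type u} [Field k] {𝒱 : VarClass k} {ops : CycleOps 𝒱}
  {W : WeilCohomology.{u, v} ops} {X V Y Z : 𝒱.Obj} {D : X.Cycles} {E : V.Cycles} {F : Z.Cycles}

lemma sum_part (V : 𝒱.Obj) {J : ℕ} (hJ : V.dim ≤ J) :
    ∑ j ∈ Finset.range J, partDefect W V j = defect W V := by
  have h1 := sum_pd (n := V.dim) (r := fun c => finrank W.K (spanCycles W V c))
    (fun c hc => by rw [rank_icc V c hc, finrank_bot]; rfl) hJ
  simp only [pd_eq_part] at h1
  rw [h1]
  rfl

/-- **The defect of a product.** -/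
theorem defect_mul (hD : X.IsCyc 1 D) (hE : V.IsCyc 1 E) (hX : HardLefschetz W X D)
    (hV : HardLefschetz W V E) :
    (rkSum ops X : ℤ) * defect W V ≤ defect W (X.prod V) := by
  rw [← sum_part (X.prod V) (J := X.dim + V.dim) (le_of_eq (dim_prod X V))]
  refine le_trans ?_ (Finset.sum_le_sum fun j _ => part_prod hD hE hX hV j)
  rw [Finset.sum_comm' (t' := Finset.range (X.dim + 1))
    (s' := fun q => Finset.Ico q (X.dim + V.dim))]
  · rw [rkSum, Nat.cast_sum, Finset.sum_mul]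
    refine Finset.sum_le_sum fun q hq => ?_
    rw [Finset.mem_range] at hq
    rw [← Finset.mul_sum, Finset.sum_Ico_eq_sum_range]
    refine mul_le_mul_of_nonneg_left ?_ (Int.natCast_nonneg _)
    rw [← sum_part V (J := X.dim + V.dim - q) (by omega)]
    refine le_of_eq (Finset.sum_congr rfl fun i _ => ?_)
    rw [Nat.add_sub_cancel_left]
  · intro j q
    simp only [Finset.mem_range, Finset.mem_filter, Finset.mem_Ico]
    omega

/-! ### Isomorphic varieties -/


lemma map_span (f : X ⟶ Y) {c : ℤ} {y : W.H Y} (hy : y ∈ spanCycles W Y c) :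
    W.map f y ∈ spanCycles W X c := by
  induction hy using Submodule.span_induction with
  | mem x hx =>
    obtain ⟨p, hp, z, hz, rfl⟩ := hx
    rw [← W.cl_pull]
    exact Submodule.subset_span ⟨p, hp, _, ops.pull_mem f hz, rfl⟩
  | zero => rw [map_zero]; exact Submodule.zero_mem _
  | add x y _ _ hx hy => rw [map_add]; exact Submodule.add_mem _ hx hy
  | smul q x _ hx => rw [map_smul]; exact Submodule.smul_mem _ _ hx

lemma rank_le_of_retr {f : X ⟶ Y} {g : Y ⟶ X} (h : g ≫ f = 𝟙 Y) (c : ℤ) :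
    cycleRank W Y c ≤ cycleRank W X c := by
  rw [cycleRank, cycleRank]
  refine finrank_le_of_inj (T := (W.map f).toLinearMap) (fun x hx => map_span f hx)
    fun x _ h0 => ?_
  have h1 := W.map_comp g f x
  rw [h, W.map_id] at h1
  rw [h1]
  have h2 : W.map f x = 0 := h0
  rw [h2, map_zero]

lemma Isoc.rank (h : Isoc X Y) (c : ℤ) : cycleRank W X c = cycleRank W Y c := by
  obtain ⟨-, f, g, h1, h2⟩ := h
  exact le_antisymm (rank_le_of_retr h1 c) (rank_le_of_retr h2 c)

lemma Isoc.defect_eq (h : Isoc X Y) : defect W X = defect W Y := by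
  rw [defect, defect, h.1]
  exact Finset.sum_congr rfl fun p _ => by rw [Isoc.rank h]

lemma isoc_swap (X Y : 𝒱.Obj) : Isoc (X.prod Y) (Y.prod X) := by
  refine ⟨by rw [dim_prod, dim_prod, add_comm], swap X Y, swap Y X, ?_, ?_⟩
  · apply prod_hom_ext
    · rw [Category.assoc, swap_fst, swap_snd, Category.id_comp]
    · rw [Category.assoc, swap_snd, swap_fst, Category.id_comp]
  · apply prod_hom_ext
    · rw [Category.assoc, swap_fst, swap_snd, Category.id_comp]
    · rw [Category.assoc, swap_snd, swap_fst, Category.id_comp]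

lemma pw_eq (X : 𝒱.Obj) (m : ℕ) : pw X m = powProd X X m := by
  induction m with
  | zero => rfl
  | succ m ih => rw [pw, powProd, ih]

lemma powProd_sq (X : 𝒱.Obj) (m : ℕ) : powProd X (X.prod X) m = pw X (m + 1) := by
  induction m with
  | zero => rfl
  | succ m ih => rw [powProd, ih]; rfl

lemma isoc_pw (X : 𝒱.Obj) (m : ℕ) : Isoc ((pw X m).prod (X.prod X)) (pw X (m + 2)) := by
  have h1 := isoc_pow X (X.prod X) m
  rwa [powProd_sq, ← pw_eq] at h1

/-! ### Nonvanishing -/

lemma one_ne_prod (h1 : (1 : W.H X) ≠ 0) (h2 : (1 : W.H Y) ≠ 0) :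
    (1 : W.H (X.prod Y)) ≠ 0 := by
  intro h0
  have e1 : ∃ a, W.tr X a ≠ 0 := by
    by_contra hc
    push Not at hc
    exact h1 (W.nondeg 1 fun b => hc _)
  have e2 : ∃ b, W.tr Y b ≠ 0 := by
    by_contra hc
    push Not at hc
    exact h2 (W.nondeg 1 fun b => hc _)
  obtain ⟨a, ha⟩ := e1
  obtain ⟨b, hb⟩ := e2
  have h3 := W.tr_prod (X := X) (Y := Y) a b
  rw [← one_mul (W.map (Obj.fst X Y) a * W.map (Obj.snd X Y) b), h0, zero_mul, map_zero] at h3
  exact mul_ne_zero ha hb h3.symm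

lemma one_ne_pw (h1 : (1 : W.H X) ≠ 0) (m : ℕ) : (1 : W.H (pw X m)) ≠ 0 := by
  induction m with
  | zero => exact h1
  | succ m ih => exact one_ne_prod h1 ih

lemma numRank_zero_pos (hD : X.IsCyc 1 D) (hX : HardLefschetz W X D) (h1 : (1 : W.H X) ≠ 0) :
    0 < numRank ops X 0 := by
  rw [numRank_eq (W := W) (Nat.zero_le _)]
  by_contra hc
  have h3 := Nat.eq_zero_of_not_pos hc
  have h4 := Submodule.finrank_eq_zero.1 h3
  have e1 : (1 : W.H X) ∈ spanCycles W X ((0 : ℕ) : ℤ) := by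
    have := pow_mem_span (W := W) hD 0
    rwa [pow_zero] at this
  have e2 : W.cl X D ^ X.dim ∈ spanCycles W X ((X.dim - 0 : ℕ) : ℤ) := by
    rw [Nat.sub_zero]; exact pow_mem_span (W := W) hD X.dim
  have h5 := LinearMap.range_eq_bot.1 h4
  have h6 := congrArg (fun G => G ⟨1, e1⟩ ⟨W.cl X D ^ X.dim, e2⟩) h5
  have h7 : W.tr X (1 * W.cl X D ^ X.dim) = 0 := h6
  rw [one_mul] at h7
  exact tr_pow_ne hD hX h1 h7

lemma rkSum_pos (hD : X.IsCyc 1 D) (hX : HardLefschetz W X D) (h1 : (1 : W.H X) ≠ 0) :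
    0 < rkSum ops X :=
  lt_of_lt_of_le (numRank_zero_pos hD hX h1) (Finset.single_le_sum (f := fun c => numRank ops X c)
    (fun _ _ => Nat.zero_le _) (Finset.mem_range.2 (Nat.succ_pos _)))

/-- the defect of a square is even -/
lemma two_le_defect (h0 : 0 ≤ defect W (X.prod X)) (hne : defect W (X.prod X) ≠ 0) :
    2 ≤ defect W (X.prod X) := by
  have h1 : (2 : ℤ) ∣ defect W (X.prod X) := by
    rw [defect, dim_prod]
    refine Finset.dvd_sum fun p _ => ?_
    refine Dvd.dvd.mul_right ?_ _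
    push_cast
    exact ⟨(p : ℤ) - X.dim, by ring⟩
  omega

/-- the partial defects vanish under the conjecture A -/
lemma part_of_A (hD : X.IsCyc 1 D) (hX : HardLefschetz W X D) (hA : LefschetzA W X D) (j : ℕ) :
    partDefect W X j = 0 := by
  have h0 := (defect_eq_zero_iff hD hX).1 (defect_of_A hD hX hA)
  rw [partDefect]
  refine Finset.sum_eq_zero fun i _ => ?_
  by_cases hi : i ≤ X.dim
  · have h1 := h0 (X.dim - i) i (by omega)
    rw [Nat.cast_sub hi] at h1
    rw [h1, sub_self]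
  · rw [cycleRank, cycleRank, spanCycles_neg (by omega), spanCycles_large (by omega), finrank_bot,
      sub_self]

lemma part_nonneg (hD : X.IsCyc 1 D) (hX : HardLefschetz W X D) (j : ℕ) :
    0 ≤ partDefect W X j := by
  let _ : Module ℚ (W.H X) := Module.compHom _ (algebraMap ℚ W.K)
  obtain ⟨f, t⟩ := TH132.A.exists_low hD hX
  rw [← rho_V hD t j]
  exact Int.natCast_nonneg _

/-- if `B` fails then the partial defect of the square is positive -/
lemma part_sq (hD : X.IsCyc 1 D) (hX : HardLefschetz W X D) (hB : ¬ LefschetzB W X D) :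
    0 < X.dim ∧ 1 ≤ partDefect W (X.prod X) (X.dim - 1) := by
  have hD2 := isCyc_sumDiv (ops := ops) hD hD
  have hX2 := TH125.Gal.hardLefschetz_prod hD hD hX hX
  have hn : 0 < X.dim := by
    rcases Nat.eq_zero_or_pos X.dim with h | h
    · exact absurd (lefschetzB_zero hD hX h) hB
    · exact h
  refine ⟨hn, ?_⟩
  have h1 : cycleRank W (X.prod X) ((X.dim : ℤ) - 1) ≠
      cycleRank W (X.prod X) ((X.dim : ℤ) + 1) := by
    intro h
    apply hB
    refine lefschetzB_of_rank hD hX ?_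
    exact h
  have h2 : ∀ i : ℕ, i < X.dim → (0 : ℤ) ≤
      (cycleRank W (X.prod X) (((X.prod X).dim : ℤ) - i) : ℤ) - cycleRank W (X.prod X) i := by
    intro i hi
    have h3 := rk_le (W := W) hD2 hX2 (p := (i : ℤ)) (by rw [dim_prod]; push_cast; omega)
    simp only [Mom.rk] at h3
    omega
  rw [partDefect, show X.dim - 1 + 1 = X.dim - 1 + 1 from rfl, Finset.sum_range_succ]
  have h3 : (0 : ℤ) ≤ ∑ i ∈ Finset.range (X.dim - 1),
      ((cycleRank W (X.prod X) (((X.prod X).dim : ℤ) - i) : ℤ) - cycleRank W (X.prod X) i) :=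
    Finset.sum_nonneg fun i hi => h2 i (by rw [Finset.mem_range] at hi; omega)
  have h4 := h2 (X.dim - 1) (by omega)
  have e1 : (((X.prod X).dim : ℤ) - ((X.dim - 1 : ℕ) : ℤ)) = (X.dim : ℤ) + 1 := by
    rw [dim_prod, Nat.cast_sub hn]; push_cast; ring
  have e2 : (((X.dim - 1 : ℕ) : ℤ)) = (X.dim : ℤ) - 1 := by
    rw [Nat.cast_sub hn]; push_cast; ring
  rw [e1, e2] at h4 ⊢
  have h5 : (cycleRank W (X.prod X) ((X.dim : ℤ) + 1) : ℤ) -
      cycleRank W (X.prod X) ((X.dim : ℤ) - 1) ≠ 0 := by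
    intro h
    apply h1
    omega
  omega

/-- **The conjecture B and the defects of products.** -/
theorem tfae (h1 : (1 : W.H X) ≠ 0) (hD : X.IsCyc 1 D) (hX : HardLefschetz W X D) :
    List.TFAE [
      LefschetzB W X D,
      ∀ m, ∀ E : (pw X m).Cycles, (pw X m).IsCyc 1 E → HardLefschetz W (pw X m) E →
        LefschetzA W (pw X m) E,
      ∃ m, defect W (pw X (m + 2)) < 2 * rkSum ops (pw X m),
      ∃ (Z : 𝒱.Obj) (F : Z.Cycles), Z.IsCyc 1 F ∧ HardLefschetz W Z F ∧
        defect W (Z.prod (X.prod X)) < 2 * rkSum ops Z,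
      ∃ (Z : 𝒱.Obj) (F : Z.Cycles) (j : ℕ), Z.IsCyc 1 F ∧ HardLefschetz W Z F ∧ j ≤ Z.dim ∧
        partDefect W (Z.prod (X.prod X)) (j + X.dim - 1) < numRank ops Z j] := by
  have hD2 := isCyc_sumDiv (ops := ops) hD hD
  have hX2 := TH125.Gal.hardLefschetz_prod hD hD hX hX
  tfae_have 1 → 2 := by
    intro hB m E hE hHL
    exact lefschetzA_of_B hE hHL
      (lefschetzB_indep (pwDiv_cyc hD m) (pw_hard hD hX m) hE hHL (pw_B hD hX hB m))
  tfae_have 2 → 3 := by
    intro h
    refine ⟨0, ?_⟩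
    rw [defect_of_A (pwDiv_cyc (ops := ops) hD 2) (pw_hard hD hX 2)
      (h 2 _ (pwDiv_cyc hD 2) (pw_hard hD hX 2))]
    have h2 := rkSum_pos hD hX h1
    change (0 : ℤ) < 2 * (rkSum ops X : ℤ)
    positivity
  tfae_have 3 → 4 := by
    rintro ⟨m, hm⟩
    refine ⟨pw X m, _, pwDiv_cyc hD m, pw_hard hD hX m, ?_⟩
    rwa [Isoc.defect_eq (isoc_pw X m)]
  tfae_have 4 → 1 := by
    rintro ⟨Z, F, hF, hZ, hlt⟩
    rw [lefschetzB_iff_defect hD hX]
    by_contra hne
    have h2 := two_le_defect (defect_nonneg hD2 hX2) hne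
    have h3 := defect_mul hF hD2 hZ hX2
    have h4 : (rkSum ops Z : ℤ) * 2 ≤ (rkSum ops Z : ℤ) * defect W (X.prod X) :=
      mul_le_mul_of_nonneg_left h2 (Int.natCast_nonneg _)
    omega
  tfae_have 2 → 5 := by
    intro h
    refine ⟨X, D, 0, hD, hX, Nat.zero_le _, ?_⟩
    have h2 := numRank_zero_pos hD hX h1
    have h3 : partDefect W (X.prod (X.prod X)) (0 + X.dim - 1) = 0 :=
      part_of_A (pwDiv_cyc (ops := ops) hD 2) (pw_hard hD hX 2)
        (h 2 _ (pwDiv_cyc hD 2) (pw_hard hD hX 2)) _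
    rw [h3]
    exact_mod_cast h2
  tfae_have 5 → 1 := by
    rintro ⟨Z, F, j, hF, hZ, hj, hlt⟩
    by_contra hB
    obtain ⟨hn, h2⟩ := part_sq hD hX hB
    have h3 := part_prod hF hD2 hZ hX2 (j + X.dim - 1)
    have h4 : (numRank ops Z j : ℤ) * partDefect W (X.prod X) (j + X.dim - 1 - j) ≤
        ∑ q ∈ (Finset.range (j + X.dim - 1 + 1)).filter (fun q => q ≤ Z.dim),
          (numRank ops Z q : ℤ) * partDefect W (X.prod X) (j + X.dim - 1 - q) :=
      Finset.single_le_sum (f := fun q => (numRank ops Z q : ℤ) *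
        partDefect W (X.prod X) (j + X.dim - 1 - q))
        (fun q _ => mul_nonneg (Int.natCast_nonneg _) (part_nonneg hD2 hX2 _))
        (Finset.mem_filter.2 ⟨Finset.mem_range.2 (by omega), hj⟩)
    rw [show j + X.dim - 1 - j = X.dim - 1 by omega] at h4
    have h5 : (numRank ops Z j : ℤ) * 1 ≤
        (numRank ops Z j : ℤ) * partDefect W (X.prod X) (X.dim - 1) :=
      mul_le_mul_of_nonneg_left h2 (Int.natCast_nonneg _)
    omega
  tfae_finish

end Pool.Agent.V5helper92.DG
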