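import Pool.Agent.V5helper92.DG.Dim
import Pool.Agent.V5helper92.DG.Defs
import Pool.Agent.X310.Mom5
import Pool.Agent.N181.Mod.Lower

/-!
# The partial defects of a product
-/

set_option autoImplicit false
set_option linter.unusedSectionVars false

open CategoryTheory AlgebraicGeometry

universe u v

namespace Pool.Agent.V5helper92.DG

open Module Pool.Agent.H914 Pool.Agent.W534 Pool.Agent.H447 Pool.Agent.W537
  Pool.Agent.TH720.LB Pool.Agent.X310 Pool.Agent.X310.Mom VarClass Obj WeilCohomology
  Pool.Agent.N181.Mod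
open IsNilpotent (exp exp_eq_sum)

section rho

variable {K : Type*} [Field K] [CharZero K] {V : Type*} [AddCommGroup V] [Module K V]
  [FiniteDimensional K V] [Module ℚ V] {h e f : End K V} {n : ℕ} {G : ℤ → Submodule K V}

/-- The rank for a graded subspace. -/
theorem rho_fam (t : Sl2 h e f) (hI : Spanned h) (hG : ∀ c, G c ≤ ws h (2 * c - n))
    (h0 : ∀ c, c ∉ Finset.Icc (0 : ℤ) n → G c = ⊥) (he : ∀ c, ∀ v ∈ G c, e v ∈ G (c + 1)) (j : ℕ) :
    (rho ((⨆ c, G c).map (exp f)) (tau hI ((n : ℤ) - 2 * j - 1)) : ℤ) =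
      pd n (fun c => finrank K (G c)) j := by
  have hM : ∀ v ∈ (⨆ c, G c), e v ∈ (⨆ c, G c) := by
    intro v hv
    induction hv using Submodule.iSup_induction' with
    | mem c x hx => exact Submodule.mem_iSup_of_mem (c + 1) (he c x hx)
    | zero => rw [map_zero]; exact Submodule.zero_mem _
    | add x y _ _ hx hy => rw [map_add]; exact Submodule.add_mem _ hx hy
  have h1 := rho_exp t hI hM ((n : ℤ) - 2 * j - 1)
  rw [inf_dn hG h0, inf_dn hG h0, finrank_fam hG, finrank_fam hG] at h1
  have h2 : finrank K (⨆ c, G c : Submodule K V) =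
      ∑ c ∈ Finset.Icc (0 : ℤ) n, finrank K (G c) := by
    rw [iSup_eq h0, finrank_fam hG]
  rw [h2] at h1
  rw [pd_eq (fun c hc => by rw [h0 c hc, finrank_bot]; rfl)]
  have h3 := congrArg (fun m : ℕ => (m : ℤ)) h1
  push_cast at h3
  linarith

end rho

variable {k : Type u} [Field k] {𝒱 : VarClass k} {ops : CycleOps 𝒱}
  {W : WeilCohomology.{u, v} ops} {X V Y : 𝒱.Obj} {D : X.Cycles} {E : V.Cycles}

lemma wt_gr_mem {i : ℕ} {a : W.H X} (ha : a ∈ W.gr X i) {s : ℤ} (hs : s = (i : ℤ) - X.dim) :
    a ∈ ws (wt (W.isInternal X) X.dim) s := by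
  rw [mem_ws, wt, scal_apply _ _ ha, node, hs]
  congr 1
  push_cast; ring

lemma wt_grZ_mem {i : ℤ} {a : W.H X} (ha : a ∈ grZ (W.gr X) i) {s : ℤ} (hs : s = i - X.dim) :
    a ∈ ws (wt (W.isInternal X) X.dim) s := by
  by_cases hi : i < 0
  · rw [grZ_of_neg hi] at ha
    rw [(Submodule.mem_bot _).1 ha]
    exact Submodule.zero_mem _
  · lift i to ℕ using (not_lt.1 hi)
    rw [grZ_natCast] at ha
    exact wt_gr_mem ha hs

lemma spl_wt (X : 𝒱.Obj) : Spl (wt (W.isInternal X) X.dim) := by
  classical
  refine ⟨Finset.Icc (-(X.dim : ℤ)) X.dim,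
    fun s => scal (W.isInternal X) (fun i => if (i : ℤ) - X.dim = s then 1 else 0), ?_, ?_, ?_⟩
  · apply gr_ext (W.isInternal X)
    intro i a ha
    rw [LinearMap.sum_apply]
    by_cases hi : i ≤ 2 * X.dim
    · rw [Finset.sum_eq_single ((i : ℤ) - X.dim)]
      · rw [scal_apply _ _ ha, if_pos rfl, one_smul, End.one_apply]
      · intro s _ hs
        rw [scal_apply _ _ ha, if_neg (Ne.symm hs), zero_smul]
      · intro hs
        exfalso
        apply hs
        rw [Finset.mem_Icc]
        omega
    · rw [W.gr_eq_bot X i (by omega)] at ha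
      rw [(Submodule.mem_bot _).1 ha]
      simp
  · intro s
    apply gr_ext (W.isInternal X)
    intro i a ha
    rw [End.mul_apply, scal_apply _ _ ha, LinearMap.smul_apply, scal_apply _ _ ha, map_smul]
    split_ifs with h1
    · rw [one_smul, one_smul]
      exact mem_ws.1 (wt_gr_mem ha h1.symm)
    · simp
  · intro s
    apply gr_ext (W.isInternal X)
    intro i a ha
    have h2 := mem_ws.1 (wt_gr_mem (W := W) ha rfl)
    rw [End.mul_apply, h2, map_smul, LinearMap.smul_apply, scal_apply _ _ ha]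
    split_ifs with h1
    · rw [← h1]
    · simp

lemma span_ws (c : ℤ) : spanCycles W X c ≤ ws (wt (W.isInternal X) X.dim) (2 * c - X.dim) :=
  fun _ ha => wt_grZ_mem (spanCycles_deg ha) rfl

lemma kop_ws (d : ℤ) : KOp W X V d ≤ ws (two (wt (W.isInternal V) V.dim)
    (-(wt (W.isInternal X) X.dim))) (2 * d + X.dim - V.dim) := by
  intro φ hφ
  rw [mem_ws]
  apply gr_ext (W.isInternal X)
  intro i a ha
  have h1 := KOp.isHom hφ (i : ℤ) a (by rwa [grZ_natCast])
  have h2 := mem_ws.1 (wt_grZ_mem (W := W) h1 rfl)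
  have h3 := mem_ws.1 (wt_gr_mem (W := W) ha rfl)
  rw [two_app, h2, LinearMap.neg_apply, map_neg, h3, map_smul, LinearMap.smul_apply,
    ← sub_eq_add_neg, ← sub_smul]
  congr 1
  push_cast; ring

lemma kop_bot {d : ℤ} (hd : X.dim + d < 0 ∨ (X.dim : ℤ) + V.dim < X.dim + d) :
    KOp W X V d = ⊥ := by
  have h1 := finrank_KOp (W := W) (X := X) (Y := V) d
  have h2 : spanCycles W (X.prod V) (X.dim + d) = ⊥ := by
    rcases hd with h | h
    · exact spanCycles_neg h
    · exact spanCycles_large (by rw [dim_prod]; push_cast; exact h)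
  rw [h2, finrank_bot] at h1
  exact Submodule.finrank_eq_zero.1 h1

/-- The ranks as integers -/
lemma rank_icc (V : 𝒱.Obj) (c : ℤ) (hc : c ∉ Finset.Icc (0 : ℤ) V.dim) :
    spanCycles W V c = ⊥ := by
  rw [Finset.mem_Icc] at hc
  by_cases h : c < 0
  · exact spanCycles_neg h
  · exact spanCycles_large (by omega)

lemma pd_eq_part (V : 𝒱.Obj) (j : ℕ) :
    pd V.dim (fun c => finrank W.K (spanCycles W V c)) j = partDefect W V j := rfl

lemma L_span (hE : V.IsCyc 1 E) {c : ℤ} {x : W.H V} (hx : x ∈ spanCycles W V c) :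
    LinearMap.mulLeft W.K (W.cl V E) x ∈ spanCycles W V (c + 1) :=
  KOp.map_span (qop_mul (W := W) hE).kop hx

/-- the partial defect as a rank -/
lemma rho_V [Module ℚ (W.H V)] (hE : V.IsCyc 1 E) {f : End W.K (W.H V)}
    (t : TH132.A.Low W V E f) (j : ℕ) :
    (rho ((⨆ c, spanCycles W V c).map (exp f))
      (tau (spl_wt (W := W) V).spanned ((V.dim : ℤ) - 2 * j - 1)) : ℤ) = partDefect W V j := by
  rw [← pd_eq_part]
  exact rho_fam t _ span_ws (rank_icc V) (fun c v hv => L_span hE hv) j

lemma rho_prod [Module ℚ (W.H X)] [Module ℚ (W.H V)] (hD : X.IsCyc 1 D) (hE : V.IsCyc 1 E)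
    {g : End W.K (W.H X)} (tX : TH132.A.Low W X D g) {f : End W.K (W.H V)}
    (tV : TH132.A.Low W V E f) (hI : Spanned (two (wt (W.isInternal V) V.dim)
      (-(wt (W.isInternal X) X.dim)))) (j : ℕ) :
    (rho ((⨆ c : ℤ, KOp W X V (c - X.dim)).map (exp (two f g)))
      (tau hI ((X.dim : ℤ) + V.dim - 2 * j - 1)) : ℤ) = partDefect W (X.prod V) j := by
  have h1 := rho_fam (n := X.dim + V.dim) (G := fun c : ℤ => KOp W X V (c - X.dim))
    (sl2_two tX tV) hI (fun c => (kop_ws (c - X.dim)).trans (le_of_eq (by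
      congr 1; push_cast; ring))) (fun c hc => kop_bot (by
        rw [Finset.mem_Icc] at hc; push_cast at hc; omega)) (fun c φ hφ => by
        have h2 := top_mem hD hE hφ
        rw [show c - (X.dim : ℤ) + 1 = c + 1 - X.dim by ring] at h2
        exact h2) j
  rw [show (((X.dim + V.dim : ℕ) : ℤ)) = (X.dim : ℤ) + V.dim by push_cast; ring] at h1
  rw [h1, ← pd_eq_part, dim_prod]
  congr 1
  funext c
  rw [finrank_KOp, show (X.dim : ℤ) + (c - X.dim) = c by ring]

/-- **The partial defects of a product.** -/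
theorem part_prod (hD : X.IsCyc 1 D) (hE : V.IsCyc 1 E) (hX : HardLefschetz W X D)
    (hV : HardLefschetz W V E) (j : ℕ) :
    ∑ q ∈ (Finset.range (j + 1)).filter (fun q => q ≤ X.dim),
      (numRank ops X q : ℤ) * partDefect W V (j - q) ≤ partDefect W (X.prod V) j := by
  classical
  let _ : Module ℚ (W.H X) := Module.compHom _ (algebraMap ℚ W.K)
  let _ : Module ℚ (W.H V) := Module.compHom _ (algebraMap ℚ W.K)
  obtain ⟨g, tX⟩ := TH132.A.exists_low hD hX
  obtain ⟨f, tV⟩ := TH132.A.exists_low hE hV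
  obtain ⟨κ, _, _, b, s, d, hF, hcard⟩ := exists_num_fam W X
  have hI := spanned_two (spl_wt (W := W) X) (spl_wt (W := W) V)
  have hIV := (spl_wt (W := W) V).spanned
  -- `b k` is of codimension `d k`, `s k` is the dual class of codimension `dim X - d k`
  have hm := main tX tV hI hIV (⨆ c : ℤ, KOp W X V (c - X.dim)) (⨆ c, spanCycles W V c)
    (ι := κ) (fun l => (X.dim : ℤ) - 2 * d l) (fun l => b l)
    (fun l => W.tr X ∘ₗ LinearMap.mulLeft W.K (s l))
    (fun l => by
      have h1 := span_ws (d l : ℤ) (hF.he l)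
      rwa [show (2 * (d l : ℤ) - X.dim) = -((X.dim : ℤ) - 2 * d l) by ring] at h1)
    (fun l x => by
      have hs := hF.hb l
      have hdl := hF.hd l
      have h1 : (W.tr X ∘ₗ LinearMap.mulLeft W.K (s l)) ∘ₗ wt (W.isInternal X) X.dim =
          ((-((X.dim : ℤ) - 2 * d l) : ℤ) : W.K) • (W.tr X ∘ₗ LinearMap.mulLeft W.K (s l)) := by
        apply gr_ext (W.isInternal X)
        intro i a ha
        rw [LinearMap.comp_apply, mem_ws.1 (wt_gr_mem (W := W) ha rfl), map_smul,
          LinearMap.smul_apply]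
        by_cases hi : i = 2 * d l
        · congr 1
          subst hi
          push_cast; ring
        · have h2 : (W.tr X ∘ₗ LinearMap.mulLeft W.K (s l)) a = 0 := by
            rw [LinearMap.comp_apply, LinearMap.mulLeft_apply]
            exact W.tr_eq_zero (W.mul_mem (H914.span_gr hs) ha) (by omega)
          rw [h2, smul_zero, smul_zero]
      exact congrArg (fun G : W.H X →ₗ[W.K] W.K => G x) h1)
    (fun j l => by
      rw [LinearMap.comp_apply, LinearMap.mulLeft_apply, span_even (hF.hb j), hF.dual]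
      split_ifs with h1 h2 h2
      · rfl
      · exact absurd h1.symm h2
      · exact absurd h2.symm h1
      · rfl)
    (fun φ hφ l => by
      induction hφ using Submodule.iSup_induction' with
      | mem c x hx => exact Submodule.mem_iSup_of_mem _ (KOp.map_span hx (hF.he l))
      | zero => rw [LinearMap.zero_apply]; exact Submodule.zero_mem _
      | add x y _ _ hx hy => rw [LinearMap.add_apply]; exact Submodule.add_mem _ hx hy)
    (fun l u hu => by
      induction hu using Submodule.iSup_induction' with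
      | mem c x hx =>
        refine Submodule.mem_iSup_of_mem (c + (X.dim - d l : ℕ)) ?_
        exact kop_outer (hF.hb l) hx
      | zero =>
        have : (W.tr X ∘ₗ LinearMap.mulLeft W.K (s l)).smulRight (0 : W.H V) = 0 := by
          apply LinearMap.ext; intro x; simp
        rw [this]; exact Submodule.zero_mem _
      | add x y _ _ hx hy =>
        have : (W.tr X ∘ₗ LinearMap.mulLeft W.K (s l)).smulRight (x + y) =
            (W.tr X ∘ₗ LinearMap.mulLeft W.K (s l)).smulRight x +
            (W.tr X ∘ₗ LinearMap.mulLeft W.K (s l)).smulRight y := by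
          apply LinearMap.ext; intro z; simp
        rw [this]; exact Submodule.add_mem _ hx hy)
    ((X.dim : ℤ) + V.dim - 2 * j - 1)
  have h1 : (∑ l ∈ Finset.univ.filter (fun l => d l ≤ j), partDefect W V (j - d l) : ℤ) ≤
      partDefect W (X.prod V) j := by
    rw [← rho_prod hD hE tX tV hI j]
    refine le_trans ?_ (Int.ofNat_le.2 hm)
    rw [Nat.cast_sum]
    refine le_trans (le_of_eq ?_) (Finset.sum_le_sum_of_subset_of_nonneg
      (Finset.filter_subset (fun l => d l ≤ j) _) fun _ _ _ => Int.natCast_nonneg _)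
    refine Finset.sum_congr rfl fun l hl => ?_
    rw [Finset.mem_filter] at hl
    rw [← rho_V hE tV]
    congr 3
    rw [Nat.cast_sub hl.2]
    ring
  refine le_trans (le_of_eq ?_) h1
  have h2 : ∀ q ∈ (Finset.range (j + 1)).filter (fun q => q ≤ X.dim),
      (numRank ops X q : ℤ) * partDefect W V (j - q) =
        ∑ l ∈ (Finset.univ.filter (fun l => d l ≤ j)).filter (fun l => d l = q),
          partDefect W V (j - d l) := by
    intro q hq
    rw [Finset.mem_filter, Finset.mem_range] at hq
    rw [← hcard q hq.2]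
    have h3 : (Finset.univ.filter (fun l => d l ≤ j)).filter (fun l => d l = q) =
        Finset.univ.filter (fun l => d l = q) := by
      ext l
      simp only [Finset.mem_filter, Finset.mem_univ, true_and]
      omega
    rw [h3, Finset.sum_congr rfl (fun l hl => by rw [(Finset.mem_filter.1 hl).2]),
      Finset.sum_const, nsmul_eq_mul]
  rw [Finset.sum_congr rfl h2]
  refine Finset.sum_fiberwise_of_maps_to (fun l hl => ?_) _
  rw [Finset.mem_filter] at hl
  rw [Finset.mem_filter, Finset.mem_range]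
  exact ⟨by omega, hF.hd l⟩

end Pool.Agent.V5helper92.DG
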