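import Pool.Agent.V5helper92.DG.Exp

/-!
# The space of linear maps between two representations
-/

set_option autoImplicit false
set_option linter.unusedSectionVars false

namespace Pool.Agent.V5helper92.DG

open Module Pool.Agent.H914
open IsNilpotent (exp exp_eq_sum)

section spl

variable {K : Type*} [Field K] [CharZero K] {V : Type*} [AddCommGroup V] [Module K V]

/-- A finite system of projections onto the weight spaces. -/
def Spl (h : End K V) : Prop :=
  ∃ (S : Finset ℤ) (π : ℤ → End K V), ∑ s ∈ S, π s = 1 ∧ (∀ s, h * π s = (s : K) • π s) ∧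
    ∀ s, π s * h = (s : K) • π s

lemma Spl.spanned {h : End K V} (hS : Spl h) : Spanned h := by
  obtain ⟨S, π, h1, h2, -⟩ := hS
  rw [Spanned, eq_top_iff]
  rintro v -
  have h3 : v = ∑ s ∈ S, π s v := by
    rw [← LinearMap.sum_apply, h1, End.one_apply]
  rw [h3]
  refine Submodule.sum_mem _ fun s _ => Submodule.mem_iSup_of_mem s ?_
  rw [mem_ws, ← End.mul_apply, h2, LinearMap.smul_apply]

end spl

variable {K : Type*} [Field K] [CharZero K] {A B : Type*} [AddCommGroup A] [Module K A]
  [AddCommGroup B] [Module K B]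

/-- The operator `φ ↦ b φ + φ a`. -/
noncomputable def two (b : End K B) (a : End K A) : End K (A →ₗ[K] B) :=
  LinearMap.compRight K b + LinearMap.lcomp K B a

lemma two_apply (b : End K B) (a : End K A) (φ : A →ₗ[K] B) :
    two b a φ = b ∘ₗ φ + φ ∘ₗ a := rfl

lemma two_app (b : End K B) (a : End K A) (φ : A →ₗ[K] B) (x : A) :
    two b a φ x = b (φ x) + φ (a x) := rfl

lemma sl2_two {hA eA fA : End K A} {hB eB fB : End K B} (tA : Sl2 hA eA fA)
    (tB : Sl2 hB eB fB) : Sl2 (two hB (-hA)) (two eB eA) (two fB fA) where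
  ef := by
    apply LinearMap.ext; intro φ
    apply LinearMap.ext; intro x
    have h1 := congrArg (fun G : End K B => G (φ x)) tB.ef
    have h2 := congrArg (fun G : End K A => φ (G x)) tA.ef
    simp only [LinearMap.sub_apply, End.mul_apply, map_sub] at h1 h2
    simp only [LinearMap.sub_apply, End.mul_apply, two_app, map_add, LinearMap.neg_apply, map_neg]
    rw [← h1, ← h2]
    abel
  he := by
    apply LinearMap.ext; intro φ
    apply LinearMap.ext; intro x
    have h1 := congrArg (fun G : End K B => G (φ x)) tB.he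
    have h2 := congrArg (fun G : End K A => φ (G x)) tA.he
    simp only [LinearMap.sub_apply, End.mul_apply, map_sub, two_mul, LinearMap.add_apply,
      map_add] at h1 h2
    simp only [LinearMap.sub_apply, End.mul_apply, two_app, map_add, LinearMap.neg_apply, map_neg,
      two_mul, LinearMap.add_apply]
    have h3 : hB (eB (φ x)) = (eB (φ x) + eB (φ x)) + eB (hB (φ x)) := by rw [← h1]; abel
    have h4 : φ (hA (eA x)) = (φ (eA x) + φ (eA x)) + φ (eA (hA x)) := by rw [← h2]; abel
    rw [h3, h4]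
    abel
  hf := by
    apply LinearMap.ext; intro φ
    apply LinearMap.ext; intro x
    have h1 := congrArg (fun G : End K B => G (φ x)) tB.hf
    have h2 := congrArg (fun G : End K A => φ (G x)) tA.hf
    simp only [LinearMap.sub_apply, End.mul_apply, map_sub, two_mul, LinearMap.add_apply,
      map_add, LinearMap.neg_apply, map_neg] at h1 h2
    simp only [LinearMap.sub_apply, End.mul_apply, two_app, map_add, LinearMap.neg_apply, map_neg,
      two_mul, LinearMap.add_apply]
    have h3 : hB (fB (φ x)) = -(fB (φ x) + fB (φ x)) + fB (hB (φ x)) := by rw [← h1]; abel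
    have h4 : φ (hA (fA x)) = -(φ (fA x) + φ (fA x)) + φ (fA (hA x)) := by rw [← h2]; abel
    rw [h3, h4]
    abel

lemma two_ws {hA : End K A} {hB : End K B} {φ : A →ₗ[K] B} {k s : ℤ}
    (hφ : φ ∈ ws (two hB (-hA)) k) {y : A} (hy : y ∈ ws hA s) : φ y ∈ ws hB (k + s) := by
  rw [mem_ws] at hφ hy ⊢
  have h1 := congrArg (fun G : A →ₗ[K] B => G y) hφ
  simp only [two_app, LinearMap.neg_apply, map_neg, LinearMap.smul_apply] at h1
  rw [hy, map_smul] at h1
  have h2 : hB (φ y) = (k : K) • φ y + (s : K) • φ y := by rw [← h1]; abel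
  rw [h2]
  push_cast
  rw [add_smul]

lemma spanned_two {hA : End K A} {hB : End K B} (sA : Spl hA) (sB : Spl hB) :
    Spanned (two hB (-hA)) := by
  obtain ⟨S, π, h1, -, h3⟩ := sA
  obtain ⟨S', π', h1', h2', -⟩ := sB
  rw [Spanned, eq_top_iff]
  rintro φ -
  have h4 : φ = ∑ t ∈ S', ∑ s ∈ S, (π' t) ∘ₗ φ ∘ₗ (π s) := by
    apply LinearMap.ext
    intro x
    have e1 : x = ∑ s ∈ S, π s x := by
      rw [← LinearMap.sum_apply, h1, End.one_apply]
    have e2 : φ x = ∑ t ∈ S', π' t (φ x) := by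
      rw [← LinearMap.sum_apply, h1', End.one_apply]
    rw [e2, LinearMap.sum_apply]
    refine Finset.sum_congr rfl fun t _ => ?_
    rw [LinearMap.sum_apply]
    conv_lhs => rw [e1]
    rw [map_sum, map_sum]
    rfl
  rw [h4]
  refine Submodule.sum_mem _ fun t _ => Submodule.sum_mem _ fun s _ =>
    Submodule.mem_iSup_of_mem (t - s) ?_
  rw [mem_ws]
  apply LinearMap.ext
  intro x
  have e3 := congrArg (fun G : End K B => G (φ (π s x))) (h2' t)
  have e4 := congrArg (fun G : End K A => π' t (φ (G x))) (h3 s)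
  simp only [End.mul_apply, LinearMap.smul_apply, map_smul] at e3 e4
  simp only [two_app, LinearMap.comp_apply, LinearMap.neg_apply, map_neg, LinearMap.smul_apply]
  rw [e3, e4]
  push_cast
  rw [sub_smul, sub_eq_add_neg]

lemma tau_two {hA : End K A} {hB : End K B} (hI : Spanned (two hB (-hA))) (hIB : Spanned hB)
    (P : ℤ) (φ : A →ₗ[K] B) {s : ℤ} {y : A} (hy : y ∈ ws hA s) :
    tau hI P φ y = tau hIB (P + s) (φ y) := by
  have hφ : φ ∈ ⨆ k : ℤ, ws (two hB (-hA)) k := by
    rw [show (⨆ k : ℤ, ws (two hB (-hA)) k) = ⊤ from hI]; trivial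
  induction hφ using Submodule.iSup_induction' with
  | mem k ψ hψ =>
    have h1 := two_ws hψ hy
    rcases lt_or_ge P k with hk | hk
    · rw [tau_up hI (ws_le_up hk hψ), tau_up hIB (ws_le_up (by omega : P + s < k + s) h1)]
    · rw [tau_dn hI (ws_le_dn hk hψ), tau_dn hIB (ws_le_dn (by omega : k + s ≤ P + s) h1)]
      rfl
  | zero => simp
  | add x y _ _ hx hy =>
    rw [map_add, LinearMap.add_apply, hx, hy, LinearMap.add_apply, map_add]

section exps

variable [Module ℚ A] [Module ℚ B]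

lemma nil_compRight {b : End K B} (hb : IsNilpotent b) :
    IsNilpotent (LinearMap.compRight K b : End K (A →ₗ[K] B)) := by
  obtain ⟨N, hN⟩ := hb
  refine ⟨N, ?_⟩
  have h1 : ∀ m : ℕ, ∀ φ : A →ₗ[K] B,
      ((LinearMap.compRight K b : End K (A →ₗ[K] B)) ^ m) φ = (b ^ m) ∘ₗ φ := by
    intro m
    induction m with
    | zero => intro φ; rfl
    | succ m ih => intro φ; rw [pow_succ', End.mul_apply, ih, pow_succ']; rfl
  apply LinearMap.ext
  intro φ
  rw [h1, hN]
  rfl

lemma pow_compRight (b : End K B) (m : ℕ) (φ : A →ₗ[K] B) :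
    ((LinearMap.compRight K b : End K (A →ₗ[K] B)) ^ m) φ = (b ^ m) ∘ₗ φ := by
  induction m with
  | zero => rfl
  | succ m ih => rw [pow_succ', End.mul_apply, ih, pow_succ']; rfl

lemma pow_lcomp (a : End K A) (m : ℕ) (φ : A →ₗ[K] B) :
    ((LinearMap.lcomp K B a : End K (A →ₗ[K] B)) ^ m) φ = φ ∘ₗ (a ^ m) := by
  induction m with
  | zero => rfl
  | succ m ih => rw [pow_succ', End.mul_apply, ih, pow_succ]; rfl

lemma nil_lcomp {a : End K A} (ha : IsNilpotent a) :
    IsNilpotent (LinearMap.lcomp K B a : End K (A →ₗ[K] B)) := by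
  obtain ⟨N, hN⟩ := ha
  refine ⟨N, ?_⟩
  apply LinearMap.ext
  intro φ
  rw [pow_lcomp, hN]
  apply LinearMap.ext
  intro x
  simp

lemma exp_two {a : End K A} {b : End K B} (ha : IsNilpotent a) (hb : IsNilpotent b)
    (φ : A →ₗ[K] B) : exp (two b a) φ = exp b ∘ₗ φ ∘ₗ exp a := by
  have hc : Commute (LinearMap.compRight K b : End K (A →ₗ[K] B)) (LinearMap.lcomp K B a) := by
    apply LinearMap.ext
    intro φ
    rfl
  rw [two, IsNilpotent.exp_add_of_commute hc (nil_compRight hb) (nil_lcomp ha), End.mul_apply]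
  have e1 : ∀ ψ : A →ₗ[K] B, exp (LinearMap.lcomp K B a : End K (A →ₗ[K] B)) ψ =
      ψ ∘ₗ exp a := by
    intro ψ
    obtain ⟨N, hN⟩ := nil_lcomp (B := B) ha
    obtain ⟨N', hN'⟩ := ha
    have h1 : (LinearMap.lcomp K B a : End K (A →ₗ[K] B)) ^ (N + N') = 0 := by
      rw [pow_add, hN, zero_mul]
    have h2 : a ^ (N + N') = 0 := by rw [pow_add, hN', mul_zero]
    rw [exp_eq_sum h1, exp_eq_sum h2, LinearMap.sum_apply]
    apply LinearMap.ext
    intro x
    rw [LinearMap.comp_apply, LinearMap.sum_apply, LinearMap.sum_apply, map_sum]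
    refine Finset.sum_congr rfl fun i _ => ?_
    rw [LinearMap.smul_apply, LinearMap.smul_apply, pow_lcomp, LinearMap.smul_apply,
      map_rat_smul]
    rfl
  have e2 : ∀ ψ : A →ₗ[K] B, exp (LinearMap.compRight K b : End K (A →ₗ[K] B)) ψ =
      exp b ∘ₗ ψ := by
    intro ψ
    obtain ⟨N, hN⟩ := nil_compRight (A := A) hb
    obtain ⟨N', hN'⟩ := hb
    have h1 : (LinearMap.compRight K b : End K (A →ₗ[K] B)) ^ (N + N') = 0 := by
      rw [pow_add, hN, zero_mul]
    have h2 : b ^ (N + N') = 0 := by rw [pow_add, hN', mul_zero]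
    rw [exp_eq_sum h1, exp_eq_sum h2, LinearMap.sum_apply]
    apply LinearMap.ext
    intro x
    rw [LinearMap.comp_apply, LinearMap.sum_apply, LinearMap.sum_apply]
    refine Finset.sum_congr rfl fun i _ => ?_
    rw [LinearMap.smul_apply, LinearMap.smul_apply, pow_compRight, LinearMap.smul_apply]
    rfl
  rw [e1, e2]

end exps

section main

variable [FiniteDimensional K A] [FiniteDimensional K B] [Module ℚ A] [Module ℚ B]
  {hA eA fA : End K A} {hB eB fB : End K B}

/-- **The rank inequality.** -/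
theorem main (tA : Sl2 hA eA fA) (tB : Sl2 hB eB fB) (hI : Spanned (two hB (-hA)))
    (hIB : Spanned hB) (M : Submodule K (A →ₗ[K] B)) (U : Submodule K B)
    {ι : Type*} [Fintype ι] [DecidableEq ι] (w : ι → ℤ) (y : ι → A) (lam : ι → A →ₗ[K] K)
    (hy : ∀ l, y l ∈ ws hA (-w l)) (hlam : ∀ j x, lam j (hA x) = ((-w j : ℤ) : K) * lam j x)
    (dual : ∀ j l, lam j (y l) = if j = l then 1 else 0)
    (hev : ∀ φ ∈ M, ∀ l, φ (y l) ∈ U) (hout : ∀ j, ∀ u ∈ U, (lam j).smulRight u ∈ M) (P : ℤ) :
    ∑ l, rho (U.map (exp fB)) (tau hIB (P - w l)) ≤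
      rho (M.map (exp (two fB fA))) (tau hI P) := by
  set N := M.map (exp (two fB fA)) with hN
  set Q := U.map (exp fB) with hQ
  have hnA := tA.nil_f
  have hnB := tB.nil_f
  -- the functionals vanish below
  have hl0 : ∀ j s, s ≠ -w j → ∀ x ∈ ws hA s, lam j x = 0 := by
    intro j s hs x hx
    rw [mem_ws] at hx
    have h1 := hlam j x
    rw [hx, map_smul, smul_eq_mul] at h1
    have h2 : ((s : K) - ((-w j : ℤ) : K)) * lam j x = 0 := by rw [sub_mul, h1, sub_self]
    rcases mul_eq_zero.1 h2 with h3 | h3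
    · exact absurd (Int.cast_injective (sub_eq_zero.1 h3)) hs
    · exact h3
  have hl1 : ∀ j, ∀ x ∈ dn hA (-w j - 1), lam j x = 0 := by
    intro j x hx
    have h1 : dn hA (-w j - 1) ≤ LinearMap.ker (lam j) :=
      dn_le fun k hk v hv => hl0 j k (by omega) v hv
    exact h1 hx
  -- the elements of `N`
  have hΦ : ∀ j, ∀ x ∈ Q, ((lam j) ∘ₗ (exp fA)).smulRight x ∈ N := by
    rintro j _ ⟨u, hu, rfl⟩
    refine ⟨(lam j).smulRight u, hout j u hu, ?_⟩
    rw [exp_two hnA hnB]
    apply LinearMap.ext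
    intro z
    simp
  have hE : ∀ φ ∈ N, ∀ l, φ (exp (-fA) (y l)) ∈ Q := by
    rintro _ ⟨φ, hφ, rfl⟩ l
    rw [exp_two hnA hnB, LinearMap.comp_apply, LinearMap.comp_apply, exp_exp_neg hnA]
    exact ⟨_, hev φ hφ l, rfl⟩
  -- the maps
  let Φ : ι → (Q →ₗ[K] N) := fun j =>
    { toFun := fun x => ⟨((lam j) ∘ₗ (exp fA)).smulRight (x : B), hΦ j x x.2⟩
      map_add' := by
        intro x x'
        apply Subtype.ext
        apply LinearMap.ext
        intro z
        simp
      map_smul' := by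
        intro c x
        apply Subtype.ext
        apply LinearMap.ext
        intro z
        simp [smul_comm c] }
  let ev : ι → (((A →ₗ[K] B) ⧸ N) →ₗ[K] (B ⧸ Q)) := fun l =>
    N.mapQ Q (LinearMap.applyₗ (exp (-fA) (y l))) (fun φ hφ => hE φ hφ l)
  let g : N →ₗ[K] ((A →ₗ[K] B) ⧸ N) := (N.mkQ ∘ₗ tau hI P) ∘ₗ N.subtype
  let T : ι → ι → (Q →ₗ[K] (B ⧸ Q)) := fun l j => ev l ∘ₗ g ∘ₗ Φ j
  have hT : ∀ l j (x : Q), T l j x = Q.mkQ (tau hI P (((lam j) ∘ₗ (exp fA)).smulRight (x : B))
      (exp (-fA) (y l))) := fun l j x => rfl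
  -- truncated vectors
  have key : ∀ j (x : B), ∀ z ∈ dn hA (-w j - 1),
      tau hI P (((lam j) ∘ₗ (exp fA)).smulRight x) z = 0 := by
    intro j x z hz
    have h1 : dn hA (-w j - 1) ≤
        LinearMap.ker (tau hI P (((lam j) ∘ₗ (exp fA)).smulRight x)) := by
      refine dn_le fun k hk v hv => ?_
      rw [LinearMap.mem_ker, tau_two hI hIB P _ hv, LinearMap.smulRight_apply,
        LinearMap.comp_apply, hl1 j _ (exp_f_dn tA _ (ws_le_dn hk hv)), zero_smul, map_zero]
    exact h1 hz
  have h0 : ∀ l j, w j < w l → T l j = 0 := by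
    intro l j hlj
    apply LinearMap.ext
    intro x
    have h2 : (exp (-fA) (y l)) ∈ dn hA (-w j - 1) := by
      have h3 := exp_neg_f_dn tA (-w l) (ws_le_dn le_rfl (hy l))
      have h4 : dn hA (-w l) ≤ dn hA (-w j - 1) :=
        dn_le fun k hk => ws_le_dn (by omega)
      exact h4 h3
    rw [hT, key j _ _ h2, map_zero, LinearMap.zero_apply]
  have h1 : ∀ l j, w j = w l → ∀ x : Q,
      T l j x = (if j = l then (1 : K) else 0) • Q.mkQ (tau hIB (P - w l) (x : B)) := by
    intro l j hlj x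
    have h2 : exp (-fA) (y l) = y l + (exp (-fA) (y l) - y l) := by abel
    have h3 := exp_neg_f_ws tA (hy l)
    rw [← hlj] at h3
    have h4 : lam j (exp fA (y l)) = if j = l then 1 else 0 := by
      have h5 : exp fA (y l) = y l + (exp fA (y l) - y l) := by abel
      have h6 := exp_f_ws tA (hy l)
      rw [← hlj] at h6
      rw [h5, map_add, dual, hl1 j _ h6, add_zero]
    rw [hT, h2, map_add, key j _ _ h3, add_zero, tau_two hI hIB P _ (hy l),
      LinearMap.smulRight_apply, LinearMap.comp_apply, h4, map_smul, map_smul,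
      ← sub_eq_add_neg]
  have h2 := blocks w T h0 (fun l j hlj hne => by
    apply LinearMap.ext
    intro x
    rw [h1 l j hlj x, if_neg (Ne.symm hne), zero_smul, LinearMap.zero_apply])
  have h3 : ∀ l, finrank K (LinearMap.range (T l l)) = rho Q (tau hIB (P - w l)) := by
    intro l
    have h4 : T l l = (Q.mkQ ∘ₗ tau hIB (P - w l)) ∘ₗ Q.subtype := by
      apply LinearMap.ext
      intro x
      rw [h1 l l rfl x, if_pos rfl, one_smul]
      rfl
    rw [h4, LinearMap.range_comp, Submodule.range_subtype, rho]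
  rw [Finset.sum_congr rfl fun l _ => h3 l] at h2
  refine h2.trans ?_
  have h4 : LinearMap.pi (fun l => ∑ j, T l j ∘ₗ LinearMap.proj (φ := fun _ : ι => Q) j) =
      (LinearMap.pi ev) ∘ₗ g ∘ₗ (∑ j, Φ j ∘ₗ LinearMap.proj (φ := fun _ : ι => Q) j) := by
    apply LinearMap.ext
    intro x
    funext l
    simp only [LinearMap.pi_apply, LinearMap.comp_apply, LinearMap.sum_apply, map_sum]
    rfl
  rw [h4]
  have h5 : LinearMap.range g = N.map (N.mkQ ∘ₗ tau hI P) := by
    change LinearMap.range ((N.mkQ ∘ₗ tau hI P) ∘ₗ N.subtype) = _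
    rw [LinearMap.range_comp, Submodule.range_subtype]
  rw [rho, ← h5, LinearMap.range_comp]
  refine (Submodule.finrank_map_le _ _).trans ?_
  exact Submodule.finrank_mono (LinearMap.range_comp_le_range _ _)

end main

end Pool.Agent.V5helper92.DG
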