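import Pool.Agent.H914R2.Sl2Rep

/-!
# Weight spaces and truncations
-/

set_option autoImplicit false

namespace Pool.Agent.V5helper92.DG

open Module

section weights

variable {K : Type*} [Field K] [CharZero K] {V : Type*} [AddCommGroup V] [Module K V]

/-- The vectors of weight `k`. -/
def ws (h : End K V) (k : ℤ) : Submodule K V := End.eigenspace h (k : K)

omit [CharZero K] in
lemma mem_ws {h : End K V} {k : ℤ} {v : V} : v ∈ ws h k ↔ h v = (k : K) • v :=
  End.mem_eigenspace_iff

/-- The span of the vectors of weight larger than `P`. -/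
def up (h : End K V) (P : ℤ) : Submodule K V := ⨆ k : ℤ, ⨆ _ : P < k, ws h k

/-- The span of the vectors of weight at most `P`. -/
def dn (h : End K V) (P : ℤ) : Submodule K V := ⨆ k : ℤ, ⨆ _ : k ≤ P, ws h k

/-- The space is spanned by vectors of integral weights. -/
def Spanned (h : End K V) : Prop := ⨆ k : ℤ, ws h k = ⊤

omit [CharZero K] in
lemma ws_le_up {h : End K V} {k P : ℤ} (hk : P < k) : ws h k ≤ up h P :=
  le_iSup_of_le k (le_iSup_of_le hk le_rfl)

omit [CharZero K] in
lemma ws_le_dn {h : End K V} {k P : ℤ} (hk : k ≤ P) : ws h k ≤ dn h P :=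
  le_iSup_of_le k (le_iSup_of_le hk le_rfl)

omit [CharZero K] in
lemma up_le {h : End K V} {P : ℤ} {S : Submodule K V} (hS : ∀ k, P < k → ws h k ≤ S) :
    up h P ≤ S := iSup_le fun k => iSup_le fun hk => hS k hk

omit [CharZero K] in
lemma dn_le {h : End K V} {P : ℤ} {S : Submodule K V} (hS : ∀ k, k ≤ P → ws h k ≤ S) :
    dn h P ≤ S := iSup_le fun k => iSup_le fun hk => hS k hk

lemma indep_ws (h : End K V) : iSupIndep (ws h) := by
  have h1 := End.eigenspaces_iSupIndep h
  exact h1.comp (f := fun k : ℤ => (k : K)) Int.cast_injective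

lemma disjoint_up_dn (h : End K V) (P : ℤ) : Disjoint (up h P) (dn h P) := by
  have h1 := (indep_ws h).disjoint_biSup_biSup (s := {k : ℤ | P < k}) (t := {k : ℤ | k ≤ P}) (by
    rw [Set.disjoint_left]
    intro k hk hk'
    simp only [Set.mem_ofPred_eq] at hk hk'
    omega)
  exact h1

omit [CharZero K] in
lemma codisjoint_up_dn {h : End K V} (hI : Spanned h) (P : ℤ) : up h P ⊔ dn h P = ⊤ := by
  rw [eq_top_iff, ← hI]
  refine iSup_le fun k => ?_
  rcases lt_or_ge P k with hk | hk
  · exact (ws_le_up hk).trans le_sup_left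
  · exact (ws_le_dn hk).trans le_sup_right

lemma isCompl_up_dn {h : End K V} (hI : Spanned h) (P : ℤ) : IsCompl (up h P) (dn h P) :=
  ⟨disjoint_up_dn h P, codisjoint_iff.2 (codisjoint_up_dn hI P)⟩

/-- The projection onto the vectors of weight larger than `P`. -/
noncomputable def tau {h : End K V} (hI : Spanned h) (P : ℤ) : End K V :=
  (up h P).subtype ∘ₗ Submodule.projectionOnto _ _ (isCompl_up_dn hI P)

lemma tau_up {h : End K V} (hI : Spanned h) {P : ℤ} {v : V} (hv : v ∈ up h P) :
    tau hI P v = v := by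
  have := Submodule.projectionOnto_apply_left (isCompl_up_dn hI P) ⟨v, hv⟩
  simp only [tau, LinearMap.comp_apply, Submodule.subtype_apply]
  exact congrArg Subtype.val this

lemma tau_dn {h : End K V} (hI : Spanned h) {P : ℤ} {v : V} (hv : v ∈ dn h P) :
    tau hI P v = 0 := by
  have := Submodule.projectionOnto_apply_right (isCompl_up_dn hI P) ⟨v, hv⟩
  simp only [tau, LinearMap.comp_apply, Submodule.subtype_apply]
  exact congrArg Subtype.val this

lemma tau_mem {h : End K V} (hI : Spanned h) (P : ℤ) (v : V) : tau hI P v ∈ up h P :=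
  (Submodule.projectionOnto _ _ (isCompl_up_dn hI P) v).2

lemma sub_tau_mem {h : End K V} (hI : Spanned h) (P : ℤ) (v : V) : v - tau hI P v ∈ dn h P := by
  have hv : v ∈ up h P ⊔ dn h P := by rw [codisjoint_up_dn hI]; trivial
  obtain ⟨a, ha, b, hb, rfl⟩ := Submodule.mem_sup.1 hv
  rw [map_add, tau_up hI ha, tau_dn hI hb, add_zero, add_sub_cancel_left]
  exact hb

/-- The rank of the operator `T`, as a map from `N` to the quotient by `N`. -/
noncomputable def rho (N : Submodule K V) (T : End K V) : ℕ :=
  finrank K (N.map (N.mkQ ∘ₗ T))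

lemma rho_eq [FiniteDimensional K V] {h : End K V} (hI : Spanned h) (N : Submodule K V) (P : ℤ) :
    rho N (tau hI P) + finrank K (N ⊓ dn h P : Submodule K V) +
      finrank K (N ⊓ up h P : Submodule K V) = finrank K N := by
  set g : N →ₗ[K] (V ⧸ N) := (N.mkQ ∘ₗ tau hI P) ∘ₗ N.subtype with hg
  have h1 : LinearMap.range g = N.map (N.mkQ ∘ₗ tau hI P) := by
    rw [hg, LinearMap.range_comp, Submodule.range_subtype]
  have h2 := LinearMap.finrank_range_add_finrank_ker g
  have h3 : (LinearMap.ker g).map N.subtype = (N ⊓ dn h P) ⊔ (N ⊓ up h P) := by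
    apply le_antisymm
    · rintro _ ⟨v, hv, rfl⟩
      have h4 : tau hI P (v : V) ∈ N := by
        have : N.mkQ (tau hI P (v : V)) = 0 := hv
        rwa [Submodule.mkQ_apply, Submodule.Quotient.mk_eq_zero] at this
      have h5 : (v : V) = ((v : V) - tau hI P v) + tau hI P v := by abel
      rw [Submodule.subtype_apply, h5]
      exact Submodule.add_mem_sup ⟨Submodule.sub_mem _ v.2 h4, sub_tau_mem hI P _⟩
        ⟨h4, tau_mem hI P _⟩
    · refine sup_le ?_ ?_
      · rintro v ⟨hv, hv'⟩
        refine ⟨⟨v, hv⟩, ?_, rfl⟩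
        change N.mkQ (tau hI P v) = 0
        rw [tau_dn hI hv', map_zero]
      · rintro v ⟨hv, hv'⟩
        refine ⟨⟨v, hv⟩, ?_, rfl⟩
        change N.mkQ (tau hI P v) = 0
        rw [tau_up hI hv', Submodule.mkQ_apply, Submodule.Quotient.mk_eq_zero]
        exact hv
  have h4 : finrank K (LinearMap.ker g) =
      finrank K (N ⊓ dn h P : Submodule K V) + finrank K (N ⊓ up h P : Submodule K V) := by
    have h5 : finrank K ((LinearMap.ker g).map N.subtype) = finrank K (LinearMap.ker g) :=
      Submodule.finrank_map_subtype_eq N _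
    have h6 := Submodule.finrank_sup_add_finrank_inf_eq (N ⊓ dn h P) (N ⊓ up h P)
    have h7 : (N ⊓ dn h P) ⊓ (N ⊓ up h P) = ⊥ := by
      rw [eq_bot_iff]
      exact (inf_le_inf inf_le_right inf_le_right).trans
        ((disjoint_up_dn h P).symm.le_bot)
    rw [h7, finrank_bot, add_zero, ← h3, h5] at h6
    exact h6
  rw [rho, ← h1]
  omega

end weights

section blocks

variable {K : Type*} [Field K] {Q R : Type*} [AddCommGroup Q] [Module K Q]
  [FiniteDimensional K Q] [AddCommGroup R] [Module K R]

/-- The rank of a block triangular map is at least the sum of the ranks of the diagonal blocks. -/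
lemma blocks {ι : Type*} [Fintype ι] (w : ι → ℤ) (T : ι → ι → (Q →ₗ[K] R))
    (h0 : ∀ l j, w j < w l → T l j = 0) (h1 : ∀ l j, w j = w l → l ≠ j → T l j = 0) :
    ∑ l, finrank K (LinearMap.range (T l l)) ≤ finrank K (LinearMap.range
      (LinearMap.pi (fun l => ∑ j, T l j ∘ₗ LinearMap.proj (φ := fun _ : ι => Q) j))) := by
  classical
  choose G hG using fun l => Submodule.exists_isCompl (LinearMap.ker (T l l))
  set Θ : (ι → Q) →ₗ[K] (ι → R) :=
    LinearMap.pi (fun l => ∑ j, T l j ∘ₗ LinearMap.proj (φ := fun _ : ι => Q) j) with hΘ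
  set Ψ : ((l : ι) → G l) →ₗ[K] (ι → Q) :=
    LinearMap.pi fun l => (G l).subtype ∘ₗ LinearMap.proj l with hΨ
  have hval : ∀ (x : ι → Q) l, Θ x l = ∑ j, T l j (x j) := by
    intro x l
    simp [hΘ, LinearMap.pi_apply, LinearMap.sum_apply]
  have hinj : Function.Injective (Θ ∘ₗ Ψ) := by
    rw [injective_iff_map_eq_zero]
    intro x hx
    by_contra hne
    have h2 : (Finset.univ.filter fun l => x l ≠ 0).Nonempty := by
      by_contra h3
      rw [Finset.not_nonempty_iff_eq_empty, Finset.filter_eq_empty_iff] at h3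
      apply hne
      funext l
      have := h3 (Finset.mem_univ l)
      push Not at this
      exact this
    obtain ⟨l, hl, hmax⟩ := Finset.exists_max_image _ w h2
    rw [Finset.mem_filter] at hl
    have h3 : Θ (Ψ x) l = 0 := congrFun hx l
    rw [hval, Finset.sum_eq_single l] at h3
    · apply hl.2
      have h4 : ((x l : Q)) ∈ LinearMap.ker (T l l) ⊓ G l := ⟨h3, (x l).2⟩
      rw [(hG l).inf_eq_bot] at h4
      exact Subtype.ext ((Submodule.mem_bot _).1 h4)
    · intro j _ hj
      rcases lt_trichotomy (w j) (w l) with h4 | h4 | h4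
      · rw [h0 l j h4, LinearMap.zero_apply]
      · rw [h1 l j h4 (Ne.symm hj), LinearMap.zero_apply]
      · have h5 : x j = 0 := by
          by_contra h6
          have := hmax j (Finset.mem_filter.2 ⟨Finset.mem_univ _, h6⟩)
          omega
        have h6 : Ψ x j = 0 := by
          simp [hΨ, h5]
        rw [h6, map_zero]
    · exact fun h => absurd (Finset.mem_univ _) h
  have h2 := LinearMap.finrank_range_of_inj hinj
  have h3 : finrank K (LinearMap.range (Θ ∘ₗ Ψ)) ≤ finrank K (LinearMap.range Θ) :=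
    Submodule.finrank_mono (LinearMap.range_comp_le_range _ _)
  rw [h2, Module.finrank_pi_fintype] at h3
  refine le_trans (Finset.sum_le_sum fun l _ => ?_) h3
  have h4 := LinearMap.finrank_range_add_finrank_ker (T l l)
  have h5 := Submodule.finrank_add_eq_of_isCompl (hG l)
  omega

end blocks

end Pool.Agent.V5helper92.DG
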